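import Mathlib
import Pool.Agent.H326R3.P3

set_option autoImplicit false

/-!
# Isomorphic subvarieties that are not equivalent, under the algebraic overshear density property

Let `Q = {xy = z^2 - 1} ⊂ ℂ^3` and `Z = Q × ℂ^(3+m)`. Then `Z` has the algebraic overshear density
property. The subvarieties `X = Q × {0}` and `Y = {(0,0,1)} × Q × {0}` are isomorphic to `Q`, but no
homeomorphism of `Z` maps `X` into `Y`: the real sphere in `Q` is a retract of `Q`, while `Y` is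
contractible in `Z`.
-/

open MvPolynomial

namespace Pool.Agent.Results.MP_563419_an.NoExtension

/-- The zero set in `ℂ^n` of an ideal of polynomials. -/
def zeros {n : ℕ} (J : Ideal (MvPolynomial (Fin n) ℂ)) : Set (Fin n → ℂ) :=
  {p | ∀ f ∈ J, eval p f = 0}

/-- `J` is the prime ideal of a smooth irreducible closed subvariety of `ℂ^n` of dimension `d`. -/
def IsSmoothVariety {n : ℕ} (J : Ideal (MvPolynomial (Fin n) ℂ)) (d : ℕ) : Prop :=
  J.IsPrime ∧ Algebra.Smooth ℂ (MvPolynomial (Fin n) ℂ ⧸ J) ∧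
    ringKrullDim (MvPolynomial (Fin n) ℂ ⧸ J) = d

/-- The algebraic overshear density property of the variety with coordinate ring
`ℂ[x_1, ..., x_n] / J`: the fields `f Θ`, with `Θ` a locally nilpotent derivation and `Θ(Θ(f)) = 0`,
generate the Lie algebra of all derivations of the coordinate ring. -/
def OvershearDensity {n : ℕ} (J : Ideal (MvPolynomial (Fin n) ℂ)) : Prop :=
  LieSubalgebra.lieSpan ℂ
    (Derivation ℂ (MvPolynomial (Fin n) ℂ ⧸ J) (MvPolynomial (Fin n) ℂ ⧸ J))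
    {V | ∃ Θ : Derivation ℂ (MvPolynomial (Fin n) ℂ ⧸ J) (MvPolynomial (Fin n) ℂ ⧸ J),
        (∀ g : MvPolynomial (Fin n) ℂ ⧸ J, ∃ k : ℕ, (⇑Θ)^[k] g = 0) ∧
        ∃ f : MvPolynomial (Fin n) ℂ ⧸ J, Θ (Θ f) = 0 ∧ V = f • Θ} = ⊤

/-- The polynomial self-map of `ℂ^n` with components `P`. -/
noncomputable def polyMap {n : ℕ} (P : Fin n → MvPolynomial (Fin n) ℂ) (p : Fin n → ℂ) :
    Fin n → ℂ := fun i => eval p (P i)

/-- `P` restricts to an algebraic isomorphism from the zero set of `JX` onto that of `JY`, with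
inverse the restriction of `Q`. -/
def IsAlgIso {n : ℕ} (JX JY : Ideal (MvPolynomial (Fin n) ℂ))
    (P Q : Fin n → MvPolynomial (Fin n) ℂ) : Prop :=
  (∀ p ∈ zeros JX, polyMap P p ∈ zeros JY ∧ polyMap Q (polyMap P p) = p) ∧
  (∀ p ∈ zeros JY, polyMap Q p ∈ zeros JX ∧ polyMap P (polyMap Q p) = p)

/-- In every dimension `m + 5` there is a smooth irreducible affine variety `Z` with the algebraic
overshear density property, containing two algebraically isomorphic smooth irreducible closed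
surfaces `X` and `Y`, such that no homeomorphism of `Z` maps `X` into `Y`. In particular no
algebraic isomorphism from `X` to `Y` extends to a holomorphic automorphism of `Z`. -/
theorem result (m : ℕ) :
    ∃ (n : ℕ) (I JX JY : Ideal (MvPolynomial (Fin n) ℂ))
      (P Q : Fin n → MvPolynomial (Fin n) ℂ),
      IsSmoothVariety I (m + 5) ∧ OvershearDensity I ∧
      IsSmoothVariety JX 2 ∧ IsSmoothVariety JY 2 ∧ I ≤ JX ∧ I ≤ JY ∧
      IsAlgIso JX JY P Q ∧
      ∀ Φ : zeros I ≃ₜ zeros I,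
        ¬ ∀ p : zeros I, (p : Fin n → ℂ) ∈ zeros JX → (Φ p : Fin n → ℂ) ∈ zeros JY := by
  refine ⟨3 + (3 + m), Pool.Agent.H326R3.Prd.Ik (3 + m),
    Pool.Agent.H326R3.Sur.J (Pool.Agent.H326R3.Sur.vX (3 + m)),
    Pool.Agent.H326R3.Sur.J (Pool.Agent.H326R3.Sur.vY m),
    Pool.Agent.H326R3.Sur.PP m, Pool.Agent.H326R3.Sur.QQ m, ?_, ?_, ?_, ?_, ?_, ?_, ?_, ?_⟩
  · exact ⟨Pool.Agent.H326R3.Prd.isPrime_Ik, Pool.Agent.H326R3.Prd.smooth_R,
      Pool.Agent.H326R3.Sur.dim_R m⟩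
  · exact Pool.Agent.H326R3.Prd.Lk_top
  · exact ⟨Pool.Agent.H326R3.Sur.J_prime _,
      Pool.Agent.H326R3.Sur.J_smooth _ _ (Pool.Agent.H326R3.Sur.vX_l (3 + m)),
      Pool.Agent.H326R3.Sur.J_dim _ _ (Pool.Agent.H326R3.Sur.vX_l (3 + m))⟩
  · exact ⟨Pool.Agent.H326R3.Sur.J_prime _,
      Pool.Agent.H326R3.Sur.J_smooth _ _ (Pool.Agent.H326R3.Sur.vY_rl m),
      Pool.Agent.H326R3.Sur.J_dim _ _ (Pool.Agent.H326R3.Sur.vY_rl m)⟩
  · exact Pool.Agent.H326R3.Sur.Ik_le_X _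
  · exact Pool.Agent.H326R3.Sur.Ik_le_Y _
  · exact ⟨fun p hp => Pool.Agent.H326R3.Sur.iso1 m p hp,
      fun p hp => Pool.Agent.H326R3.Sur.iso2 m p hp⟩
  · intro Φ hΦ
    have hz : ∀ p : Fin (3 + (3 + m)) → ℂ, p ∈ zeros (Pool.Agent.H326R3.Prd.Ik (3 + m)) ↔
        p (Fin.castAdd (3 + m) 0) * p (Fin.castAdd (3 + m) 1) =
          p (Fin.castAdd (3 + m) 2) ^ 2 - 1 := fun p => Pool.Agent.H326R3.Prd.mem_zero_iff_k p
    let F : C(Pool.Agent.H326R3.Sur.ZZ (3 + m), Pool.Agent.H326R3.Sur.ZZ (3 + m)) :=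
      ⟨fun p => ⟨(Φ ⟨p.1, (hz _).2 p.2⟩ : Fin (3 + (3 + m)) → ℂ), (hz _).1 (Φ _).2⟩, by
        refine Continuous.subtype_mk ?_ _
        refine continuous_subtype_val.comp (Φ.continuous.comp ?_)
        exact Continuous.subtype_mk continuous_subtype_val _⟩
    let G : C(Pool.Agent.H326R3.Sur.ZZ (3 + m), Pool.Agent.H326R3.Sur.ZZ (3 + m)) :=
      ⟨fun p => ⟨(Φ.symm ⟨p.1, (hz _).2 p.2⟩ : Fin (3 + (3 + m)) → ℂ), (hz _).1 (Φ.symm _).2⟩, by
        refine Continuous.subtype_mk ?_ _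
        refine continuous_subtype_val.comp (Φ.symm.continuous.comp ?_)
        exact Continuous.subtype_mk continuous_subtype_val _⟩
    refine Pool.Agent.H326R3.Sur.no_homeo (3 + m) F G ?_ ?_
    · intro p
      apply Subtype.ext
      change (Φ.symm (Φ ⟨p.1, (hz _).2 p.2⟩) : Fin (3 + (3 + m)) → ℂ) = p.1
      rw [Φ.symm_apply_apply]
    · intro p hp i
      have h1 := hΦ ⟨p.1, (hz _).2 p.2⟩
        ((Pool.Agent.H326R3.Sur.zX (3 + m) p.1).2 ⟨p.2, hp⟩)
      exact ((Pool.Agent.H326R3.Sur.zY m _).1 h1).1 i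

end Pool.Agent.Results.MP_563419_an.NoExtension
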